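import Pool.Agent.W_2cf66e_h88.Tfae88

/-!
# MP_2cf66e_nt: periods are the mean values of minima of quadratic polynomials

For `x = Real.exp 1` the predicate `IsPeriod x` is exactly the frozen statement of the problem.
-/

set_option autoImplicit false

open MeasureTheory

namespace Pool.Agent.Results.MP_2cf66e_nt.MinimaOfQuadratics

/-- A real number `x` is a period if and only if it is the integral over a cube `[0,1]^n` of the
minimum of finitely many polynomials of degree at most `2` with rational coefficients.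

For `x > 0` the following are equivalent:
* `x` is a period;
* `x` is the integral over a cube `[0,1]^n` of the minimum of finitely many rational polynomials
  of degree at most `2`, concave on `ℝ^n` and positive on the cube;
* `x` is the volume of the unit ball of a norm on some `ℝ^N`, invariant under sign changes of the
  coordinates, which is the set of all `z` with `0 ≤ q_j z` for finitely many concave rational
  polynomials `q_j` of degree at most `2`;
* `x` is the volume of a compact convex set given by finitely many inequalities `0 ≤ q z`, each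
  `q` affine with rational coefficients or such a polynomial minus the square of the sum or the
  difference of two distinct coordinates;
* `x` is the volume of a compact set given by finitely many linear matrix inequalities
  `A + z_1 B_1 + ... + z_N B_N ≥ 0` with symmetric rational `2 x 2` matrices. -/
theorem result :
    (∀ x : ℝ, Pool.Agent.CVol.IsPeriod x ↔
      ∃ (n m : ℕ) (q : Fin (m + 1) → MvPolynomial (Fin n) ℚ), (∀ j, (q j).totalDegree ≤ 2) ∧
        x = ∫ z in Set.Icc (0 : Fin n → ℝ) 1, ⨅ j, (MvPolynomial.aeval z (q j) : ℝ)) ∧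
    (∀ x : ℝ, 0 < x → List.TFAE [
      Pool.Agent.CVol.IsPeriod x,
      ∃ (n m : ℕ) (q : Fin (m + 1) → MvPolynomial (Fin n) ℚ),
        (∀ j, (q j).totalDegree ≤ 2 ∧
          ConcaveOn ℝ Set.univ (fun z : Fin n → ℝ => (MvPolynomial.aeval z (q j) : ℝ)) ∧
          ∀ z ∈ Set.Icc (0 : Fin n → ℝ) 1, (0 : ℝ) < MvPolynomial.aeval z (q j)) ∧
        x = ∫ z in Set.Icc (0 : Fin n → ℝ) 1, ⨅ j, (MvPolynomial.aeval z (q j) : ℝ),
      ∃ (N m : ℕ) (q : Fin m → MvPolynomial (Fin N) ℚ) (p : Seminorm ℝ (Fin N → ℝ)),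
        (∀ j, (q j).totalDegree ≤ 2 ∧
          ConcaveOn ℝ Set.univ (fun z : Fin N → ℝ => (MvPolynomial.aeval z (q j) : ℝ))) ∧
        (∀ z, p z = 0 → z = 0) ∧
        (∀ z ε : Fin N → ℝ, (∀ i, ε i = 1 ∨ ε i = -1) → p (fun i => ε i * z i) = p z) ∧
        {z | p z ≤ 1} = {z | ∀ j, (0 : ℝ) ≤ MvPolynomial.aeval z (q j)} ∧
        volume {z | p z ≤ 1} = ENNReal.ofReal x,
      ∃ (N m : ℕ) (q : Fin m → MvPolynomial (Fin N) ℚ), (∀ i, Pool.Agent.CQ68.IsCQ (q i)) ∧
        Convex ℝ {z : Fin N → ℝ | ∀ i, 0 ≤ (MvPolynomial.aeval z (q i) : ℝ)} ∧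
        IsCompact {z : Fin N → ℝ | ∀ i, 0 ≤ (MvPolynomial.aeval z (q i) : ℝ)} ∧
        volume {z : Fin N → ℝ | ∀ i, 0 ≤ (MvPolynomial.aeval z (q i) : ℝ)} = ENNReal.ofReal x,
      ∃ (N m : ℕ) (A : Fin m → Matrix (Fin 2) (Fin 2) ℚ)
        (B : Fin m → Fin N → Matrix (Fin 2) (Fin 2) ℚ),
        (∀ i, (A i).IsSymm) ∧ (∀ i k, (B i k).IsSymm) ∧
        IsCompact {z : Fin N → ℝ | ∀ i, ((A i).map (Rat.cast : ℚ → ℝ) +
          ∑ k, z k • (B i k).map (Rat.cast : ℚ → ℝ)).PosSemidef} ∧
        volume {z : Fin N → ℝ | ∀ i, ((A i).map (Rat.cast : ℚ → ℝ) +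
          ∑ k, z k • (B i k).map (Rat.cast : ℚ → ℝ)).PosSemidef} = ENNReal.ofReal x]) :=
  ⟨Pool.Agent.MinQ.period_iff_min, Pool.Agent.MinQ.period_tfae⟩

end Pool.Agent.Results.MP_2cf66e_nt.MinimaOfQuadratics
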