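import Pool.Agent.W_2cf66e_h88.PkDef78

/-!
# MP_2cf66e_nt: volumes in `ℝ^m` and the positive set of one integer polynomial, same `m`, inside
any given open set

For `x = Real.exp 1` the predicate `IsPeriod x` is exactly the frozen statement of the problem.
-/

set_option autoImplicit false

open MeasureTheory Pool.Agent.OneIneq

namespace Pool.Agent.Results.MP_2cf66e_nt.OneInequality

/-- Let `m = n + 1 ≥ 1`, let `x > 0` be a real number and let `O` be ANY open subset of `ℝ^m` of
volume larger than `x`. The following are equivalent: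
* `x` is the volume of a semialgebraic subset of `ℝ^m`;
* `x` is the volume of a compact semialgebraic subset of `O`;
* `x` is the volume of a bounded set `{u ∈ ℝ^m | 0 < f u}` with closure inside `O`, `f` ONE
  polynomial with integer coefficients;
* the same with `f u` the determinant of a square matrix each of whose entries is `0`, `1` or one
  of `u_1, ..., u_m`;
* there is one homogeneous polynomial `F(t, z_1, ..., z_m)` with integer coefficients such that,
  for all integers `T ≥ 1`, the integer points `z` with `0 < F(T, z)` satisfy `|z_i| ≤ K T` and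
  `z / T ∈ O`, and their number differs from `x T ^ m` by at most `K T ^ (m - 1)`.

For every `m = n + 1 ≥ 1` and every real number `x` the following are equivalent:
* `x` is a difference of volumes of semialgebraic subsets of `ℝ^m`;
* `x` is an integer plus the volume of a set `{u ∈ ℝ^m | 0 < f u}` with closure inside the open
  unit cube of `ℝ^m`, `f` one polynomial with integer coefficients;
* for some natural number `M`, `x` is `M` times the integral over `[0,1]^m` of the sign of one
  polynomial in `m` variables with integer coefficients;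
* the same holds for every natural number `M > |x|`.

A real number `x > 0` is a period if and only if it is the volume of a semialgebraic subset of
`ℝ^m` for some `m ≥ 1`. Every real number `x` is a period if and only if, for some `m ≥ 1`, it is
an integer plus the volume of a set `{u ∈ ℝ^m | 0 < f u}` with closure inside the open unit cube,
`f` one polynomial with integer coefficients, and if and only if the same holds with a determinant
as above.

Here `IsSA S` means that `S` is a finite Boolean combination of sets `{p > 0}`, where `p` is a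
polynomial with rational coefficients. -/
theorem result :
    (∀ (n : ℕ) (x : ℝ) (O : Set (Fin (n + 1) → ℝ)), 0 < x → IsOpen O →
      ENNReal.ofReal x < volume O → List.TFAE [
      ∃ S : Set (Fin (n + 1) → ℝ), Pool.Agent.CVol.IsSA S ∧ volume S = ENNReal.ofReal x,
      ∃ S : Set (Fin (n + 1) → ℝ), Pool.Agent.CVol.IsSA S ∧ IsCompact S ∧ S ⊆ O ∧
        volume S = ENNReal.ofReal x,
      ∃ f : MvPolynomial (Fin (n + 1)) ℤ,
        Bornology.IsBounded (Pos f) ∧ closure (Pos f) ⊆ O ∧ volume (Pos f) = ENNReal.ofReal x,
      ∃ (N : ℕ) (c : Fin N → Fin N → Fin (n + 1 + 2)),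
        Bornology.IsBounded (PosD c) ∧ closure (PosD c) ⊆ O ∧
        volume (PosD c) = ENNReal.ofReal x,
      Points n x O]) ∧
    (∀ (n : ℕ) (x : ℝ), List.TFAE [
      ∃ S T : Set (Fin (n + 1) → ℝ), Pool.Agent.CVol.IsSA S ∧ Pool.Agent.CVol.IsSA T ∧
        volume S ≠ ⊤ ∧ volume T ≠ ⊤ ∧ x = (volume S).toReal - (volume T).toReal,
      ∃ (a : ℤ) (f : MvPolynomial (Fin (n + 1)) ℤ),
        closure (Pos f) ⊆ Cube (n + 1) ∧ x = a + (volume (Pos f)).toReal,
      ∃ (M : ℕ) (f : MvPolynomial (Fin (n + 1)) ℤ), x = M * Sgn f,
      ∀ M : ℕ, |x| < M → ∃ f : MvPolynomial (Fin (n + 1)) ℤ, x = M * Sgn f]) ∧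
    (∀ x : ℝ, 0 < x → (Pool.Agent.CVol.IsPeriod x ↔ ∃ (n : ℕ) (S : Set (Fin (n + 1) → ℝ)),
      Pool.Agent.CVol.IsSA S ∧ volume S = ENNReal.ofReal x)) ∧
    (∀ x : ℝ, List.TFAE [
      Pool.Agent.CVol.IsPeriod x,
      ∃ (a : ℤ) (n : ℕ) (f : MvPolynomial (Fin (n + 1)) ℤ),
        closure (Pos f) ⊆ Cube (n + 1) ∧ x = a + (volume (Pos f)).toReal,
      ∃ (a : ℤ) (n N : ℕ) (c : Fin N → Fin N → Fin (n + 1 + 2)),
        closure (PosD c) ⊆ Cube (n + 1) ∧ x = a + (volume (PosD c)).toReal]) :=
  ⟨Pool.Agent.WSP.pack_tfae88, Pool.Agent.WSP.real_pack88,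
    fun _ hx => Pool.Agent.WSP.period_dim88 hx, Pool.Agent.WSP.period_pack88⟩

end Pool.Agent.Results.MP_2cf66e_nt.OneInequality
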